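import Pool.Graph.R_pool_sql_team_8f841797.H16.PrimeRecip
import Pool.Agent.KS6_88.PR.Final

/-!
MP_3aed06_nt: the kernel `1 / |p - q|` on the set of primes.  The linear bound asked for in Q1 is the
weakest of a scale of bounds that all hold: the kernel is bounded on `l^r` of the primes for every
`1 < r < oo`, and the sums `sum_{q in A, q <> p} 1 / |p - q|` have exponentially decaying tails on
every finite set `A` of primes.  For an arbitrary set of natural numbers the three properties are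
equivalent.
-/

set_option autoImplicit false

namespace Pool.Agent.Results.MP_3aed06_nt.KernelBound

open Finset

/-- `S(B)`, the sum of `1 / (q - p)` over the pairs `p < q` of elements of `B`. -/
noncomputable def pairSum (B : Finset ℕ) : ℝ :=
  ∑ p ∈ B, ∑ q ∈ B with p < q, 1 / ((q : ℝ) - (p : ℝ))

/-- `T_A f (p)`, the sum of `|f q| / |p - q|` over the elements `q` of `A` other than `p`. -/
noncomputable def rowSum (A : Finset ℕ) (f : ℕ → ℝ) (p : ℕ) : ℝ :=
  ∑ q ∈ A.erase p, |f q| / |(p : ℝ) - (q : ℝ)|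

/-- The property asked for in Q1: `S(B)` is at most a constant times the number of elements,
for all finite subsets `B` of `P`. -/
def LinearPairSums (P : Set ℕ) : Prop :=
  ∃ c : ℝ, ∀ B : Finset ℕ, (∀ p ∈ B, p ∈ P) → pairSum B ≤ c * #B

/-- The kernel `1 / |p - q|` is bounded on `l^r` of every finite subset of `P`, for every
`1 < r < oo`, with operator norm at most `C (r - 1) ^ (1 - 2 / r)`. -/
def BoundedKernel (P : Set ℕ) : Prop :=
  ∃ C : ℝ, 0 < C ∧ ∀ r : ℝ, 1 < r → ∀ A : Finset ℕ, (∀ p ∈ A, p ∈ P) → ∀ f : ℕ → ℝ,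
    ∑ p ∈ A, rowSum A f p ^ r ≤ C ^ r * (r - 1) ^ (r - 2) * ∑ p ∈ A, |f p| ^ r

/-- Exponential tails: at most `8 exp (-c x) #A` elements `p` of `A` have
`sum_{q in A, q <> p} 1 / |p - q| >= x`. -/
def ExponentialTails (P : Set ℕ) : Prop :=
  ∃ c : ℝ, 0 < c ∧ ∀ A : Finset ℕ, (∀ p ∈ A, p ∈ P) → ∀ x : ℝ,
    (#{p ∈ A | x ≤ rowSum A (fun _ => 1) p} : ℝ) ≤ 8 * Real.exp (-(c * x)) * #A

theorem row_one (A : Finset ℕ) (p : ℕ) :
    rowSum A (fun _ => 1) p = Pool.Agent.KS6_88.PR.ker A (fun _ => 1) p := by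
  have := Pool.Agent.KS6_88.PR.rowSum_eq A (fun _ => 1) p
  simp only [abs_one] at this
  rw [← this]
  rfl

theorem linear_bounded {P : Set ℕ} (h : LinearPairSums P) : BoundedKernel P := by
  obtain ⟨c, hc⟩ := h
  have hm : 0 ≤ max c 0 := le_max_right _ _
  refine ⟨64 * (1 + 4 * max c 0), by positivity, fun r hr A hA f => ?_⟩
  have h1 := Pool.Agent.KS6_88.PR.operator hr hm A (fun B hB => (hc B fun p hp => hA p (hB hp)).trans
    (mul_le_mul_of_nonneg_right (le_max_left _ _) (Nat.cast_nonneg _))) (fun q => |f q|)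
    (fun q => abs_nonneg _)
  simp only [← Pool.Agent.KS6_88.PR.rowSum_eq] at h1
  exact h1

theorem linear_tails {P : Set ℕ} (h : LinearPairSums P) : ExponentialTails P := by
  obtain ⟨c, hc⟩ := h
  have hm : 0 ≤ max c 0 := le_max_right _ _
  have he := Real.exp_pos 1
  refine ⟨1 / (Real.exp 1 * (64 * (1 + 4 * max c 0))), by positivity, fun A hA x => ?_⟩
  simp only [row_one]
  exact Pool.Agent.KS6_88.PR.tail hm A (fun B hB => (hc B fun p hp => hA p (hB hp)).trans
    (mul_le_mul_of_nonneg_right (le_max_left _ _) (Nat.cast_nonneg _))) x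

theorem bounded_linear {P : Set ℕ} (h : BoundedKernel P) : LinearPairSums P := by
  obtain ⟨C, hC, h⟩ := h
  refine ⟨C, fun B hB => Pool.Agent.KS6_88.PR.linear_of_sq hC B ?_⟩
  have := h 2 (by norm_num) B hB (fun _ => 1)
  simp only [row_one, abs_one, Real.one_rpow, sum_const, nsmul_eq_mul, mul_one] at this
  rw [show (2 : ℝ) - 1 = 1 by norm_num, Real.one_rpow, mul_one] at this
  exact this

theorem tails_linear {P : Set ℕ} (h : ExponentialTails P) : LinearPairSums P := by
  obtain ⟨c, hc, h⟩ := h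
  refine ⟨4 * (1 - Real.exp (-c))⁻¹, fun B hB => Pool.Agent.KS6_88.PR.linear_of_tail hc B fun x => ?_⟩
  have := h B hB x
  simp only [row_one] at this
  exact this

theorem endpoint (C : ℝ) : ∃ A : Finset ℕ, (∀ p ∈ A, Nat.Prime p) ∧ 2 ∈ A ∧
    C < rowSum A (fun _ => 1) 2 := by
  by_contra hcon
  push Not at hcon
  refine not_summable_one_div_on_primes (summable_of_sum_le (c := C + 1 / 2)
    (fun p => Set.indicator_nonneg (fun _ _ => by positivity) _) fun u => ?_)
  set A : Finset ℕ := insert 2 {p ∈ u | Nat.Prime p} with hA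
  have hP : ∀ p ∈ A, Nat.Prime p := by
    intro p hp
    rcases mem_insert.mp hp with h | h
    · rw [h]; exact Nat.prime_two
    · exact (mem_filter.mp h).2
  have h1 := hcon A hP (mem_insert_self _ _)
  have h2 : ∑ q ∈ A.erase 2, 1 / (q : ℝ) ≤ rowSum A (fun _ => 1) 2 := by
    refine sum_le_sum fun q hq => ?_
    obtain ⟨q2, qA⟩ := mem_erase.mp hq
    have hq3 : 2 < q := lt_of_le_of_ne (hP q qA).two_le (Ne.symm q2)
    have hq4 : (2 : ℝ) < q := by exact_mod_cast hq3
    rw [abs_one, abs_sub_comm]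
    push_cast
    rw [abs_of_pos (by linarith)]
    exact one_div_le_one_div_of_le (by linarith) (by linarith)
  have h3 : ∑ p ∈ u, Set.indicator {p | Nat.Prime p} (fun n : ℕ => (1 : ℝ) / n) p =
      ∑ q ∈ u with Nat.Prime q, 1 / (q : ℝ) := by
    rw [sum_filter]
    exact sum_congr rfl fun q _ => by simp [Set.indicator_apply]
  have h4 : ∑ q ∈ u with Nat.Prime q, 1 / (q : ℝ) ≤ ∑ q ∈ A, 1 / (q : ℝ) :=
    sum_le_sum_of_subset_of_nonneg (subset_insert _ _) fun q _ _ => by positivity
  have h5 := add_sum_erase A (fun q : ℕ => 1 / (q : ℝ)) (mem_insert_self 2 _)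
  have h6 : (1 : ℝ) / ((2 : ℕ) : ℝ) = 1 / 2 := by norm_num
  rw [h3]
  rw [h6] at h5
  linarith

/-- **MP_3aed06_nt, Q1, in a strong form.**
1. For every set `P` of natural numbers, the linear bound of Q1 on `P`, the boundedness of the
kernel `1 / |p - q|` on `l^r` of `P` for all `1 < r < oo`, and the exponential tails of the row sums
on finite subsets of `P` are equivalent.
2. The set of primes has all three properties.
3. Q1 verbatim.
4. The range `1 < r < oo` is best possible: the row sums at `p = 2` are unbounded. -/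
theorem result :
    (∀ P : Set ℕ, (LinearPairSums P ↔ BoundedKernel P) ∧
      (LinearPairSums P ↔ ExponentialTails P)) ∧
    BoundedKernel {p | Nat.Prime p} ∧ ExponentialTails {p | Nat.Prime p} ∧
    (∃ c : ℝ, ∀ s : Finset ℕ, s.Nonempty → (∀ p ∈ s, Nat.Prime p) → pairSum s < c * #s) ∧
    (∀ C : ℝ, ∃ A : Finset ℕ, (∀ p ∈ A, Nat.Prime p) ∧ 2 ∈ A ∧ C < rowSum A (fun _ => 1) 2) := by
  have hQ : ∃ c : ℝ, ∀ s : Finset ℕ, s.Nonempty → (∀ p ∈ s, Nat.Prime p) → pairSum s < c * #s :=
    Pool.Agent.H16.PrimeRecip.main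
  have hL : LinearPairSums {p | Nat.Prime p} := by
    obtain ⟨c, hc⟩ := hQ
    refine ⟨c, fun B hB => ?_⟩
    rcases B.eq_empty_or_nonempty with h | h
    · subst h; simp [pairSum]
    · exact (hc B h hB).le
  exact ⟨fun P => ⟨⟨linear_bounded, bounded_linear⟩, ⟨linear_tails, tails_linear⟩⟩,
    linear_bounded hL, linear_tails hL, hQ, endpoint⟩

end Pool.Agent.Results.MP_3aed06_nt.KernelBound
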